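import Pool.Agent.Work.MP_0e30b3_gt.Hard

namespace Pool.Agent.Results.MP_0e30b3_gt.PrimeHardFront

open Pool.Agent.Work.MP_0e30b3_gt

/-- There is a front of the max-tb unknot whose smooth resolution has 12 crossings, is prime,
can be unknotted by Reidemeister moves, and is strongly hard on the sphere. -/
theorem result :
    ∃ (w : Word) (g : Code), IsMaxTbUnknotFront w ∧ IsGaussCode w g ∧ g.length = 24 ∧
      IsPrimeCode g ∧ (∃ (n : ℕ) (D : ℕ → Code), IsUnknottingSeq g n D) ∧ StronglyHard g :=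
  ⟨F, c0, F_unknot, F_gauss, rfl, c0_prime, ⟨_, _, seq_ok⟩, c0_hard⟩

end Pool.Agent.Results.MP_0e30b3_gt.PrimeHardFront
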